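import Pool.Agent.H86.CMLib.W528.Odd.Stms

/-!
Project OT (MP_c1bb77_ag), part HALF: the rank of a half component of a symplectic operator.
-/

set_option autoImplicit false

namespace Pool.Agent.W327.OT.Half

open Module

/-- adjoint operators for a nondegenerate form have the same rank -/
theorem rank_adj {K : Type} [Field K] {V : Type} [AddCommGroup V] [Module K V]
    [FiniteDimensional K V] (ω : V →ₗ[K] V →ₗ[K] K) (hnd : ∀ u, (∀ v, ω u v = 0) → u = 0)
    {u v : Module.End K V} (h : ∀ a b, ω (u a) b = -ω a (v b)) :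
    finrank K (LinearMap.range u) = finrank K (LinearMap.range v) := by
  let Φ : V →ₗ[K] Dual K V := ω
  have hinj : Function.Injective Φ := by
    rw [injective_iff_map_eq_zero]
    intro a ha
    exact hnd a fun b => LinearMap.congr_fun ha b
  have hdim : finrank K V = finrank K (Dual K V) := Subspace.dual_finrank_eq.symm
  let E : V ≃ₗ[K] Dual K V := LinearMap.linearEquivOfInjective Φ hinj hdim
  have hE : ∀ a b, E a b = ω a b := fun a b => by
    rw [LinearMap.linearEquivOfInjective_apply]
  have key : E.toLinearMap ∘ₗ u = (-(LinearMap.dualMap v)) ∘ₗ E.toLinearMap := by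
    ext a b
    simp only [LinearMap.comp_apply, LinearEquiv.coe_coe, LinearMap.neg_apply,
      LinearMap.dualMap_apply]
    rw [hE, hE, h]
  have h1 : finrank K (LinearMap.range (E.toLinearMap ∘ₗ u)) = finrank K (LinearMap.range u) := by
    rw [LinearMap.range_comp]
    exact LinearEquiv.finrank_map_eq E _
  have h2 : LinearMap.range ((-(LinearMap.dualMap v)) ∘ₗ E.toLinearMap) =
      LinearMap.range (LinearMap.dualMap v) := by
    rw [LinearMap.range_comp_of_range_eq_top _ (LinearEquiv.range E), LinearMap.range_neg]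
  rw [← h1, key, h2]
  exact LinearMap.finrank_range_dualMap_eq_finrank_range v

theorem main : Pool.Agent.W528.Odd.Half := by
  intro K _ V _ _ _ ω _halt hnd e f x P P' he hf hx _ _ _ _ _ _ hfP hP'f hefe _ hPxP' _ _ hz
  obtain ⟨u, hu⟩ : ∃ u : Module.End K V, u = e * f * x := ⟨_, rfl⟩
  obtain ⟨v, hv⟩ : ∃ v : Module.End K V, v = x * f * e := ⟨_, rfl⟩
  rw [← hu, ← hv] at hz ⊢
  have uP' : u * P' = 0 := by
    calc u * P' = e * (f * P) * x * P' := by rw [hfP, hu]
      _ = e * f * (P * x * P') := by noncomm_ring
      _ = 0 := by rw [hPxP', mul_zero]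
  have Pv : P * v = 0 := by
    calc P * v = P * x * (P' * f) * e := by rw [hP'f, hv]; noncomm_ring
      _ = (P * x * P') * f * e := by noncomm_ring
      _ = 0 := by rw [hPxP', zero_mul, zero_mul]
  have fv : f * v = 0 := by
    calc f * v = (f * P) * v := by rw [hfP]
      _ = f * (P * v) := mul_assoc _ _ _
      _ = 0 := by rw [Pv, mul_zero]
  have uf : u * f = 0 := by
    calc u * f = u * (P' * f) := by rw [hP'f]
      _ = (u * P') * f := (mul_assoc _ _ _).symm
      _ = 0 := by rw [uP', zero_mul]
  have vfu : v * f * u = 0 := by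
    have h1 : (u + v) * f * (u + v) = (u * f) * u + (u * f) * v + v * f * u + v * (f * v) := by
      noncomm_ring
    rw [h1, uf, fv] at hz
    simpa using hz
  have efu : e * f * u = u := by
    calc e * f * u = (e * f * e) * f * x := by rw [hu]; noncomm_ring
      _ = u := by rw [hefe, hu]
  have efv : e * f * v = 0 := by rw [mul_assoc, fv, mul_zero]
  have vfe : v * (f * e) = v := by
    calc v * (f * e) = x * f * (e * f * e) := by rw [hv]; noncomm_ring
      _ = v := by rw [hefe, hv]
  have ufe : u * (f * e) = 0 := by rw [← mul_assoc, uf, zero_mul]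
  have zv : (u + v) * (f * e) = v := by rw [add_mul, ufe, vfe, zero_add]
  have zu : (u + v) * (1 - f * e) = u := by rw [mul_sub, mul_one, zv, add_sub_cancel_right]
  -- the range of the sum
  have hrange : LinearMap.range (u + v) = LinearMap.range u ⊔ LinearMap.range v := by
    apply le_antisymm
    · rintro _ ⟨a, rfl⟩
      exact Submodule.add_mem_sup ⟨a, rfl⟩ ⟨a, rfl⟩
    · apply sup_le
      · rintro _ ⟨a, rfl⟩
        exact ⟨(1 - f * e) a, by rw [← Module.End.mul_apply, zu]⟩
      · rintro _ ⟨a, rfl⟩
        exact ⟨(f * e) a, by rw [← Module.End.mul_apply, zv]⟩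
  have hinf : LinearMap.range u ⊓ LinearMap.range v = ⊥ := by
    rw [eq_bot_iff]
    rintro w ⟨⟨a, ha⟩, ⟨b, hb⟩⟩
    have h1 : (e * f) w = w := by
      rw [← ha, ← Module.End.mul_apply, efu]
    have h2 : (e * f) w = 0 := by
      rw [← hb, ← Module.End.mul_apply, efv]; rfl
    rw [Submodule.mem_bot, ← h1, h2]
  have hadj : ∀ a b, ω (u a) b = -ω a (v b) := by
    intro a b
    have e1 : u a = e (f (x a)) := by rw [hu]; rfl
    have e2 : v b = x (f (e b)) := by rw [hv]; rfl
    rw [e1, e2]
    have h1 := he (f (x a)) b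
    have h2 := hf (x a) (e b)
    have h3 := hx a (f (e b))
    linear_combination h1 - h2 + h3
  have hk := rank_adj ω hnd hadj
  have hsum : finrank K (LinearMap.range (u + v)) =
      finrank K (LinearMap.range u) + finrank K (LinearMap.range v) := by
    have h1 := Submodule.finrank_sup_add_finrank_inf_eq (LinearMap.range u) (LinearMap.range v)
    rw [hinf, finrank_bot, add_zero] at h1
    rw [hrange, h1]
  refine ⟨finrank K (LinearMap.range u), by rw [hsum, ← hk]; ring, ?_⟩
  -- rank-nullity on the range of `e`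
  have hue : LinearMap.range u ≤ LinearMap.range e := by
    rintro _ ⟨a, rfl⟩
    exact ⟨f (x a), by rw [hu]; rfl⟩
  set g : LinearMap.range e →ₗ[K] V := (v * f).domRestrict (LinearMap.range e) with hg
  have hrn := LinearMap.finrank_range_add_finrank_ker g
  have hrg : LinearMap.range g = LinearMap.range v := by
    apply le_antisymm
    · rintro _ ⟨a, rfl⟩
      exact ⟨f a, rfl⟩
    · rintro _ ⟨a, rfl⟩
      refine ⟨⟨e a, ⟨a, rfl⟩⟩, ?_⟩
      show (v * (f * e)) a = v a
      rw [vfe]
  have hker : finrank K (LinearMap.range u) ≤ finrank K (LinearMap.ker g) := by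
    have h1 : finrank K (Submodule.comap (LinearMap.range e).subtype (LinearMap.range u)) =
        finrank K (LinearMap.range u) :=
      LinearEquiv.finrank_eq (Submodule.comapSubtypeEquivOfLe hue)
    rw [← h1]
    apply Submodule.finrank_mono
    rintro ⟨w, hw⟩ ⟨a, ha⟩
    rw [LinearMap.mem_ker]
    have h2 : w = u a := ha.symm
    show (v * f) w = 0
    rw [h2, ← Module.End.mul_apply, vfu]; rfl
  rw [hrg, ← hk] at hrn
  omega

end Pool.Agent.W327.OT.Half
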